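import Pool.Agent.Helper25.LS.Defs

/-!
# LS-OT: a bounded family of operators induces an operator on the ultraproduct
-/

set_option autoImplicit false

open Filter Topology Module Pool.Agent.Helper25.LS

noncomputable section

namespace Pool.Agent.Helper84.LS

theorem ot : S_OT := by
  intro X _ _ U Y _ _ D A M hM
  set M0 : ℝ := max M 0 with hM0
  have hM0n : 0 ≤ M0 := le_max_right _ _
  have hA : ∀ (j : ℕ) (x : X j), ‖A j x‖ ≤ M0 * ‖x‖ := by
    intro j x
    calc ‖A j x‖ ≤ ‖A j‖ * ‖x‖ := (A j).le_opNorm x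
      _ ≤ M0 * ‖x‖ := by
        apply mul_le_mul_of_nonneg_right _ (norm_nonneg _)
        exact (hM j).trans (le_max_left _ _)
  have hmem : ∀ v : lp X ⊤, Memℓp (fun j => A j (v j)) ⊤ := by
    intro v
    apply memℓp_infty
    refine ⟨M0 * ‖v‖, ?_⟩
    rintro _ ⟨j, rfl⟩
    calc ‖A j (v j)‖ ≤ M0 * ‖v j‖ := hA j _
      _ ≤ M0 * ‖v‖ := by
        apply mul_le_mul_of_nonneg_left _ hM0n
        exact lp.norm_apply_le_norm ENNReal.top_ne_zero v j
  let B : lp X ⊤ →ₗ[ℂ] lp X ⊤ :=
    { toFun := fun v => ⟨fun j => A j (v j), hmem v⟩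
      map_add' := by
        intro v w
        ext j
        simp [lp.coeFn_add]
      map_smul' := by
        intro c v
        ext j
        simp [lp.coeFn_smul] }
  have hB : ∀ (v : lp X ⊤) (j : ℕ), (B v) j = A j (v j) := fun v j => rfl
  have hbound : ∀ v : lp X ⊤, ‖D.π (B v)‖ ≤ M0 * ‖D.π v‖ := by
    intro v
    refine le_of_tendsto_of_tendsto' (D.lim (B v)) ((D.lim v).const_mul M0) ?_
    intro j
    rw [hB]
    exact hA j _
  have hker : ∀ v w : lp X ⊤, D.π v = D.π w → D.π (B v) = D.π (B w) := by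
    intro v w h
    have h1 := hbound (v - w)
    rw [map_sub, map_sub, map_sub, h, sub_self, norm_zero, mul_zero] at h1
    have h2 := norm_le_zero_iff.mp h1
    exact sub_eq_zero.mp h2
  let s : Y → lp X ⊤ := Function.surjInv D.surj
  have hs : ∀ y, D.π (s y) = y := fun y => Function.surjInv_eq D.surj y
  let T0 : Y →ₗ[ℂ] Y :=
    { toFun := fun y => D.π (B (s y))
      map_add' := by
        intro y z
        have h := hker (s (y + z)) (s y + s z) (by rw [map_add, hs, hs, hs])
        rw [h, map_add, map_add]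
      map_smul' := by
        intro c y
        have h := hker (s (c • y)) (c • s y) (by rw [map_smul, hs, hs])
        rw [h, map_smul, map_smul]
        rfl }
  have hT0 : ∀ y, T0 y = D.π (B (s y)) := fun y => rfl
  refine ⟨T0.mkContinuous M0 ?_, ?_⟩
  · intro y
    rw [hT0]
    have h := hbound (s y)
    rwa [hs] at h
  · intro v w hvw
    rw [LinearMap.mkContinuous_apply, hT0]
    have h1 : w = B v := by
      ext j
      rw [hvw j, hB]
    rw [h1]
    exact hker _ _ (hs _)

end Pool.Agent.Helper84.LS
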